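import Pool.Agent.W355.FR.Stm

namespace Pool.Agent.W692.FR

open Polynomial Pool.Agent.W355.FR

lemma hv_add (D : ℕ) (f g : ℤ[X]) (a b : ℤ) : hv D (f + g) a b = hv D f a b + hv D g a b := by
  unfold hv
  rw [← Finset.sum_add_distrib]
  refine Finset.sum_congr rfl fun i _ => ?_
  rw [coeff_add]; ring

lemma hv_C_mul (D : ℕ) (c : ℤ) (f : ℤ[X]) (a b : ℤ) : hv D (C c * f) a b = c * hv D f a b := by
  unfold hv
  rw [Finset.mul_sum]
  refine Finset.sum_congr rfl fun i _ => ?_
  rw [coeff_C_mul]; ring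

lemma hv_zero (D : ℕ) (a b : ℤ) : hv D 0 a b = 0 := by
  simp [hv]

lemma hv_delta (hvm : P_HVM) (k : ℕ) (A B : ℤ[X]) (hA : A.natDegree ≤ 4 * k)
    (hB : B.natDegree ≤ 6 * k) (a b : ℤ) :
    hv (12 * k) (4 * A ^ 3 + 27 * B ^ 2) a b =
      4 * (hv (4 * k) A a b) ^ 3 + 27 * (hv (6 * k) B a b) ^ 2 := by
  have h4 : (4 : ℤ[X]) = C 4 := by simp
  have h27 : (27 : ℤ[X]) = C 27 := by simp
  rw [h4, h27, hv_add, hv_C_mul, hv_C_mul]
  have e1 : hv (12 * k) (A ^ 3) a b = (hv (4 * k) A a b) ^ 3 := by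
    have h1 := hvm (4 * k) (4 * k) A A hA hA a b
    have h2 := hvm (4 * k + 4 * k) (4 * k) (A * A) A
      (natDegree_mul_le.trans (add_le_add hA hA)) hA a b
    have : 12 * k = 4 * k + 4 * k + 4 * k := by ring
    rw [this, show A ^ 3 = A * A * A by ring, h2, h1]; ring
  have e2 : hv (12 * k) (B ^ 2) a b = (hv (6 * k) B a b) ^ 2 := by
    have h1 := hvm (6 * k) (6 * k) B B hB hB a b
    have : 12 * k = 6 * k + 6 * k := by ring
    rw [this, show B ^ 2 = B * B by ring, h1]; ring
  rw [e1, e2]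

lemma hv_dvd (hvm : P_HVM) {D : ℕ} {P f : ℤ[X]} (hf : f.natDegree ≤ D) (hd : P ∣ f) (a b : ℤ) :
    hv P.natDegree P a b ∣ hv D f a b := by
  by_cases h0 : f = 0
  · rw [h0, hv_zero]; exact dvd_zero _
  obtain ⟨Q, rfl⟩ := hd
  have hP0 : P ≠ 0 := left_ne_zero_of_mul h0
  have hQ0 : Q ≠ 0 := right_ne_zero_of_mul h0
  rw [natDegree_mul hP0 hQ0] at hf
  have := hvm P.natDegree (D - P.natDegree) P Q le_rfl (by omega) a b
  rw [show P.natDegree + (D - P.natDegree) = D by omega] at this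
  rw [this]
  exact dvd_mul_right _ _

lemma hv_pow (hvm : P_HVM) (P g : ℤ[X]) (D : ℕ) (hg : g.natDegree ≤ D) (n : ℕ) (a b : ℤ) :
    hv (P.natDegree * n + D) (P ^ n * g) a b = (hv P.natDegree P a b) ^ n * hv D g a b := by
  induction n with
  | zero => simp
  | succ n ih =>
    have h1 : (P ^ n * g).natDegree ≤ P.natDegree * n + D := by
      refine natDegree_mul_le.trans (add_le_add ?_ hg)
      rw [mul_comm]
      exact natDegree_pow_le
    have h2 := hvm P.natDegree (P.natDegree * n + D) P (P ^ n * g) le_rfl h1 a b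
    rw [show P.natDegree * (n + 1) + D = P.natDegree + (P.natDegree * n + D) by ring,
      show P ^ (n + 1) * g = P * (P ^ n * g) by ring, h2, ih]
    ring

lemma coprime_map {P A : ℤ[X]} (hP : Irreducible P) (hdeg : 0 < P.natDegree) (hA0 : A ≠ 0)
    (hnd : ¬ P ∣ A) : IsCoprime (P.map (Int.castRingHom ℚ)) (A.map (Int.castRingHom ℚ)) := by
  have hprim : P.IsPrimitive := hP.isPrimitive hdeg.ne'
  have hirr : Irreducible (P.map (Int.castRingHom ℚ)) :=
    (IsPrimitive.Int.irreducible_iff_irreducible_map_cast hprim).1 hP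
  rw [hirr.coprime_iff_not_dvd]
  intro hdvd
  apply hnd
  have hA := A.eq_C_content_mul_primPart
  have hc : A.content ≠ 0 := by rwa [Ne, content_eq_zero_iff]
  have h1 : P.map (Int.castRingHom ℚ) ∣ A.primPart.map (Int.castRingHom ℚ) := by
    rw [hA, Polynomial.map_mul, map_C] at hdvd
    have hu : IsUnit (C ((Int.castRingHom ℚ) A.content)) := by
      apply isUnit_C.2
      exact isUnit_iff_ne_zero.2 (by simpa using hc)
    exact (hu.dvd_mul_left).1 hdvd
  have h2 := (IsPrimitive.Int.dvd_iff_map_cast_dvd_map_cast P A.primPart hprim).2 h1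
  rw [hA]
  exact dvd_mul_of_dvd_right h2 _

lemma le_of_pow_dvd {p c : ℤ} (hp0 : p ≠ 0) (hc : ¬ p ∣ c) {n al : ℕ} (h : p ^ n ∣ p ^ al * c) :
    n ≤ al := by
  by_contra hlt
  rw [not_le] at hlt
  apply hc
  have h1 : p ^ (al + 1) ∣ p ^ al * c := (pow_dvd_pow p hlt).trans h
  rw [pow_succ] at h1
  exact (mul_dvd_mul_iff_left (pow_ne_zero al hp0)).1 h1

theorem t_LOC : P_LOC := by
  intro hvm res' k A B P hA hB hA0 hB0 hP hdeg hdvd hmin
  have res := res' hvm
  have hΔdeg : (4 * A ^ 3 + 27 * B ^ 2).natDegree ≤ 12 * k := by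
    have h4 : (4 : ℤ[X]) = C 4 := by simp
    have h27 : (27 : ℤ[X]) = C 27 := by simp
    rw [h4, h27]
    refine natDegree_add_le_of_degree_le ?_ ?_
    · refine (natDegree_C_mul_le _ _).trans (natDegree_pow_le.trans ?_)
      omega
    · refine (natDegree_C_mul_le _ _).trans (natDegree_pow_le.trans ?_)
      omega
  have hfirst : ∀ (p : ℕ) (a b : ℤ), (p : ℤ) ∣ hv P.natDegree P a b →
      (p : ℤ) ∣ 4 * (hv (4 * k) A a b) ^ 3 + 27 * (hv (6 * k) B a b) ^ 2 := by
    intro p a b hp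
    rw [← hv_delta hvm k A B hA hB]
    exact hp.trans (hv_dvd hvm hΔdeg hdvd a b)
  by_cases hPA : P ∣ A
  · -- additive
    have hPp : Prime P := hP.prime
    have hPB : P ∣ B := by
      have h1 : P ∣ 27 * B ^ 2 := by
        have h2 : P ∣ 4 * A ^ 3 := dvd_mul_of_dvd_right (dvd_pow hPA (by norm_num)) _
        exact (dvd_add_right h2).1 hdvd
      rcases hPp.dvd_or_dvd h1 with h | h
      · exfalso
        have h27 : (27 : ℤ[X]) = C 27 := by simp
        rw [h27] at h
        have h3 := natDegree_le_of_dvd h (by simp)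
        rw [natDegree_C] at h3
        omega
      · exact hPp.dvd_of_dvd_pow h
    obtain ⟨al, A1, hA1, hAeq⟩ := WfDvdMonoid.max_power_factor hA0 hP
    obtain ⟨be, B1, hB1, hBeq⟩ := WfDvdMonoid.max_power_factor hB0 hP
    have hal : 1 ≤ al := by
      by_contra hcon
      have : al = 0 := by omega
      rw [this, pow_zero, one_mul] at hAeq
      exact hA1 (hAeq ▸ hPA)
    have hbe : 1 ≤ be := by
      by_contra hcon
      have : be = 0 := by omega
      rw [this, pow_zero, one_mul] at hBeq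
      exact hB1 (hBeq ▸ hPB)
    have hA10 : A1 ≠ 0 := by rintro rfl; exact hA1 (dvd_zero _)
    have hB10 : B1 ≠ 0 := by rintro rfl; exact hB1 (dvd_zero _)
    have hP0 : P ≠ 0 := hP.ne_zero
    have dA : P.natDegree * al + A1.natDegree ≤ 4 * k := by
      rw [hAeq, natDegree_mul (pow_ne_zero _ hP0) hA10, natDegree_pow, mul_comm] at hA
      exact hA
    have dB : P.natDegree * be + B1.natDegree ≤ 6 * k := by
      rw [hBeq, natDegree_mul (pow_ne_zero _ hP0) hB10, natDegree_pow, mul_comm] at hB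
      exact hB
    obtain ⟨z1, hz1⟩ := res (4 * k - P.natDegree * al) P A1 hdeg (by omega)
      (coprime_map hP hdeg hA10 hA1)
    obtain ⟨z2, hz2⟩ := res (6 * k - P.natDegree * be) P B1 hdeg (by omega)
      (coprime_map hP hdeg hB10 hB1)
    refine ⟨max z1 z2, fun p hp hpz a b hab hpd hpd2 => ⟨hfirst p a b hpd, ?_⟩⟩
    have hpA1 := hz1 p hp (lt_of_le_of_lt (le_max_left _ _) hpz) a b hab hpd
    have hpB1 := hz2 p hp (lt_of_le_of_lt (le_max_right _ _) hpz) a b hab hpd
    have eA := hv_pow hvm P A1 (4 * k - P.natDegree * al) (by omega) al a b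
    rw [show P.natDegree * al + (4 * k - P.natDegree * al) = 4 * k by omega, ← hAeq] at eA
    have eB := hv_pow hvm P B1 (6 * k - P.natDegree * be) (by omega) be a b
    rw [show P.natDegree * be + (6 * k - P.natDegree * be) = 6 * k by omega, ← hBeq] at eB
    have hpZ : Prime (p : ℤ) := Nat.prime_iff_prime_int.1 hp
    obtain ⟨h', hh'⟩ := hpd
    have hph' : ¬ (p : ℤ) ∣ h' := by
      rintro ⟨u, hu⟩
      apply hpd2
      rw [hh', hu]
      exact ⟨u, by ring⟩
    rw [hh'] at eA eB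
    have cA : ¬ (p : ℤ) ∣ h' ^ al * hv (4 * k - P.natDegree * al) A1 a b := by
      intro h
      rcases hpZ.dvd_or_dvd h with h | h
      · exact hph' (hpZ.dvd_of_dvd_pow h)
      · exact hpA1 h
    have cB : ¬ (p : ℤ) ∣ h' ^ be * hv (6 * k - P.natDegree * be) B1 a b := by
      intro h
      rcases hpZ.dvd_or_dvd h with h | h
      · exact hph' (hpZ.dvd_of_dvd_pow h)
      · exact hpB1 h
    have eA' : hv (4 * k) A a b =
        (p : ℤ) ^ al * (h' ^ al * hv (4 * k - P.natDegree * al) A1 a b) := by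
      rw [eA]; ring
    have eB' : hv (6 * k) B a b =
        (p : ℤ) ^ be * (h' ^ be * hv (6 * k - P.natDegree * be) B1 a b) := by
      rw [eB]; ring
    have dpA : (p : ℤ) ∣ hv (4 * k) A a b := by
      rw [eA']; exact dvd_mul_of_dvd_left (dvd_pow_self _ (by omega)) _
    have dpB : (p : ℤ) ∣ hv (6 * k) B a b := by
      rw [eB']; exact dvd_mul_of_dvd_left (dvd_pow_self _ (by omega)) _
    have hm : ∀ m : ℕ, ∀ a' b' : ℤ, hv (4 * k) A a b = (p : ℤ) ^ (4 * m) * a' →
        hv (6 * k) B a b = (p : ℤ) ^ (6 * m) * b' → m = 0 := by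
      intro m a' b' h1 h2
      by_contra hm0
      have k1 : 4 ≤ al := by
        apply le_of_pow_dvd hpZ.ne_zero cA
        rw [← eA', h1]
        exact dvd_mul_of_dvd_left (pow_dvd_pow _ (by omega)) _
      have k2 : 6 ≤ be := by
        apply le_of_pow_dvd hpZ.ne_zero cB
        rw [← eB', h2]
        exact dvd_mul_of_dvd_left (pow_dvd_pow _ (by omega)) _
      refine hmin ?_ ?_
      · rw [hAeq]; exact dvd_mul_of_dvd_left (pow_dvd_pow _ k1) _
      · rw [hBeq]; exact dvd_mul_of_dvd_left (pow_dvd_pow _ k2) _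
    have hwt : wt P A = 2 := by simp [wt, hPA]
    rw [hwt]
    unfold condExp
    rw [if_neg, if_neg]
    · rintro ⟨m, a', b', h1, h2, h3⟩
      have := hm m a' b' h1 h2
      subst this
      simp only [mul_zero, pow_zero, one_mul] at h1 h2
      rw [← h1] at h3
      exact h3 dpA
    · rintro ⟨m, a', b', h1, h2, h3⟩
      have := hm m a' b' h1 h2
      subst this
      simp only [mul_zero, pow_zero, one_mul] at h1 h2
      rw [← h1, ← h2] at h3
      exact h3 (dvd_add (dvd_mul_of_dvd_right (dvd_pow dpA (by norm_num)) _)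
        (dvd_mul_of_dvd_right (dvd_pow dpB (by norm_num)) _))
  · -- multiplicative
    obtain ⟨z, hz⟩ := res (4 * k) P A hdeg hA (coprime_map hP hdeg hA0 hPA)
    refine ⟨z, fun p hp hpz a b hab hpd hpd2 => ⟨hfirst p a b hpd, ?_⟩⟩
    have hpA := hz p hp hpz a b hab hpd
    have hwt : wt P A = 1 := by simp [wt, hPA]
    rw [hwt]
    unfold condExp
    rw [if_neg]
    · split_ifs <;> norm_num
    · rintro ⟨m, a', b', h1, h2, h3⟩
      have hm0 : m = 0 := by
        by_contra hm0
        apply hpA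
        rw [h1]
        exact dvd_mul_of_dvd_left (dvd_pow_self _ (by omega)) _
      subst hm0
      simp only [mul_zero, pow_zero, one_mul] at h1 h2
      rw [← h1, ← h2] at h3
      exact h3 (hfirst p a b hpd)

end Pool.Agent.W692.FR
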